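import Pool.Agent.helper51.PC.Spec

/-!
Row pc:DRV (MP_74cfa5_ag): the partial derivatives of the rational function field.
-/

set_option autoImplicit false

namespace Pool.Agent.PC

open MvPolynomial

universe u

/-- a derivation of a domain with values in a vector space over the fraction field extends -/
lemma DRV_ext {k A K : Type u} [Field k] [CommRing A] [Algebra k A] [Field K] [Algebra k K]
    [Algebra A K] [IsScalarTower k A K] [Algebra.FormallyEtale A K] (d : Derivation k A K) :
    ∃ D : Derivation k K K, ∀ a : A, D (algebraMap A K a) = d a := by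
  have hb := KaehlerDifferential.isBaseChange_of_formallyEtale k A K
  refine ⟨(hb.lift d.liftKaehlerDifferential).compDer (KaehlerDifferential.D k K), fun a => ?_⟩
  show hb.lift d.liftKaehlerDifferential (KaehlerDifferential.D k K (algebraMap A K a)) = d a
  rw [← KaehlerDifferential.map_D k k A K a, hb.lift_eq, Derivation.liftKaehlerDifferential_comp_D]

theorem DRV : DRV_stmt.{u} := by
  intro k _ n
  have hE : Algebra.FormallyEtale (AA k n) (KK k n) :=
    Algebra.FormallyEtale.of_isLocalization (Rₘ := KK k n) (nonZeroDivisors (AA k n))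
  have h : ∀ i : Fin n, ∃ D : Derivation k (KK k n) (KK k n), ∀ a : AA k n,
      D (algebraMap (AA k n) (KK k n) a) = algebraMap (AA k n) (KK k n) (pderiv i a) := by
    intro i
    obtain ⟨D, hD⟩ := DRV_ext (k := k) (A := AA k n) (K := KK k n)
      ((Algebra.linearMap (AA k n) (KK k n)).compDer (pderiv i))
    exact ⟨D, fun a => hD a⟩
  choose D hD using h
  refine ⟨D, fun i j => ?_⟩
  unfold xx
  rw [hD, pderiv_X]
  by_cases hij : i = j
  · subst hij
    rw [if_pos rfl, Pi.single_eq_same, map_one]
  · rw [if_neg hij, Pi.single_eq_of_ne (Ne.symm hij), map_zero]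

end Pool.Agent.PC
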