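import Pool.Agent.helper64.PC.SpecE

set_option autoImplicit false

namespace Pool.Agent.PC

open Pool.Agent.PB

theorem FWM (hBFE : BFE_stmt) (hPOL : POL_stmt) : FWM_stmt := by
  intro G m A hT hW hS hA
  obtain ⟨c, hc⟩ := hBFE G hT hW
  obtain ⟨c1, hc1⟩ := hA
  obtain ⟨d, hd⟩ := hPOL c c1
  refine ⟨c + d, fun n hn => ?_⟩
  have h1 : Size (upTo G c) (A n) (c * (n ^ c1 + c1 + n)) := hc n hn (A n) (hS n hn) _ (hc1 n)
  have h2 : Size (upTo G (m n + (c + d))) (A n) (c * (n ^ c1 + c1 + n)) :=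
    Size.mono_basis (upTo_mono (by omega)) h1
  refine Size.mono_size ?_ h2
  calc c * (n ^ c1 + c1 + n) ≤ c * ((n + 2) ^ c1 + n + c1 + 2) := by
        apply Nat.mul_le_mul_left
        have := Nat.pow_le_pow_left (show n ≤ n + 2 by omega) c1
        omega
    _ ≤ n ^ d + d := hd n
    _ ≤ n ^ (c + d) + (c + d) := by
        have := Nat.pow_le_pow_right (show 0 < n by omega) (show d ≤ c + d by omega)
        omega

end Pool.Agent.PC
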